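import Mathlib
import Pool.Agent.MP_de0ecf_co.Core

set_option autoImplicit false

namespace Pool.Agent.Results.MP_de0ecf_co.DiamEqDim

open Pool.Agent.MP_de0ecf_co

universe u v

variable {B : Type u}

/-- Type `Λ`: simply laced and triangle free. -/
def TypeLambda (M : CoxeterMatrix B) : Prop :=
  (∀ s t : B, s ≠ t → M s t = 2 ∨ M s t = 3) ∧
  ¬ ∃ s t r : B, s ≠ t ∧ t ≠ r ∧ s ≠ r ∧ M s t = 3 ∧ M t r = 3 ∧ M s r = 3

/-- One braid move: a factor `s t s` with `m(s,t) = 3` is replaced by `t s t`. -/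
def BraidMove (M : CoxeterMatrix B) (β γ : List B) : Prop :=
  ∃ (s t : B) (x y : List B), M s t = 3 ∧ β = x ++ s :: t :: s :: y ∧ γ = x ++ t :: s :: t :: y

/-- The braid class of `α`. -/
def BraidClass (M : CoxeterMatrix B) (α : List B) : Set (List B) :=
  {β | Relation.ReflTransGen (BraidMove M) α β}

lemma BraidMove.symm {M : CoxeterMatrix B} {β γ : List B} (h : BraidMove M β γ) :
    BraidMove M γ β := by
  obtain ⟨s, t, x, y, h1, h2, h3⟩ := h
  exact ⟨t, s, x, y, by rw [M.symmetric]; exact h1, h3, h2⟩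

lemma BraidMove.ne {M : CoxeterMatrix B} {β γ : List B} (h : BraidMove M β γ) : β ≠ γ := by
  obtain ⟨s, t, x, y, h1, rfl, rfl⟩ := h
  intro h
  have h2 := List.append_cancel_left h
  have h3 : s = t := (List.cons.inj h2).1
  subst h3
  rw [M.diagonal] at h1
  omega

/-- The braid graph of `α`. -/
def braidGraph (M : CoxeterMatrix B) (α : List B) : SimpleGraph (BraidClass M α) where
  Adj β γ := BraidMove M β.1 γ.1
  symm := ⟨fun _ _ h => h.symm⟩
  loopless := ⟨fun _ h => h.ne rfl⟩

/-- The braid shadows occurring in the braid class of `α`: the sets of three consecutive positions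
(counted from `1`) at which some word of the class reads `s t s` with `m(s,t) = 3`. -/
def shadows (M : CoxeterMatrix B) (α : List B) : Set (Finset ℕ) :=
  {I | ∃ β ∈ BraidClass M α, ∃ (s t : B) (x y : List B), M s t = 3 ∧
    β = x ++ s :: t :: s :: y ∧ I = {x.length + 1, x.length + 2, x.length + 3}}

/-- The dimension of `α`. -/
noncomputable def dim (M : CoxeterMatrix B) (α : List B) : ℕ := (shadows M α).ncard

/-! ### Translation to letters by position -/

/-- The word as a function of the position. -/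
def toF (β : List B) : ℕ → Option B := fun j => β[j]?

/-- Adjacency in the Coxeter graph, extended to `Option B`. -/
def E (M : CoxeterMatrix B) (x y : Option B) : Prop :=
  ∃ s t : B, x = some s ∧ y = some t ∧ M s t = 3

lemma toF_inj {β γ : List B} (h : toF β = toF γ) : β = γ :=
  List.ext_getElem? (fun j => congrFun h j)

lemma drop_of_get {β : List B} {j : ℕ} {a : B} (h : β[j]? = some a) :
    β.drop j = a :: β.drop (j + 1) := by
  obtain ⟨hj, rfl⟩ := List.getElem?_eq_some_iff.1 h
  exact List.drop_eq_getElem_cons hj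

lemma toF_at (x : List B) (s t r : B) (y : List B) (j : ℕ) :
    toF (x ++ s :: t :: r :: y) j =
      if j < x.length then x[j]? else if j = x.length then some s
      else if j = x.length + 1 then some t else if j = x.length + 2 then some r
      else y[j - (x.length + 3)]? := by
  unfold toF
  by_cases h1 : j < x.length
  · rw [if_pos h1, List.getElem?_append_left h1]
  · rw [if_neg h1, List.getElem?_append_right (by omega)]
    by_cases h2 : j = x.length
    · rw [if_pos h2, h2]; simp
    rw [if_neg h2]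
    by_cases h3 : j = x.length + 1
    · rw [if_pos h3, h3]
      have : x.length + 1 - x.length = 1 := by omega
      rw [this]; simp
    rw [if_neg h3]
    by_cases h4 : j = x.length + 2
    · rw [if_pos h4, h4]
      have : x.length + 2 - x.length = 2 := by omega
      rw [this]; simp
    rw [if_neg h4]
    obtain ⟨k, rfl⟩ : ∃ k, j = x.length + 3 + k := ⟨j - (x.length + 3), by omega⟩
    have e1 : x.length + 3 + k - x.length = k + 1 + 1 + 1 := by omega
    have e2 : x.length + 3 + k - (x.length + 3) = k := by omega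
    rw [e1, e2]
    simp

lemma move_flip {M : CoxeterMatrix B} {s t : B} (x y : List B) (h : M s t = 3) :
    Avail (E M) (toF (x ++ s :: t :: s :: y)) x.length ∧
      toF (x ++ t :: s :: t :: y) = flip3 (toF (x ++ s :: t :: s :: y)) x.length := by
  refine ⟨⟨⟨s, t, ?_, ?_, h⟩, ?_⟩, ?_⟩
  · rw [toF_at]; simp
  · rw [toF_at]; simp
  · rw [toF_at, toF_at]; simp
  · funext j
    unfold flip3
    simp only [toF_at]
    split_ifs <;> first | rfl | omega

lemma avail_move {M : CoxeterMatrix B} {β : List B} {i : ℕ} (h : Avail (E M) (toF β) i) :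
    ∃ (s t : B) (x y : List B), M s t = 3 ∧ β = x ++ s :: t :: s :: y ∧ x.length = i := by
  obtain ⟨⟨s, t, h1, h2, h3⟩, h4⟩ := h
  have h4' : β[i + 2]? = some s := by
    have : toF β (i + 2) = some s := h4.trans h1
    exact this
  refine ⟨s, t, β.take i, β.drop (i + 3), h3, ?_, ?_⟩
  · rw [← drop_of_get h4', ← drop_of_get h2, ← drop_of_get h1, List.take_append_drop]
  · have : i < β.length := by
      obtain ⟨hj, -⟩ := List.getElem?_eq_some_iff.1 h1
      exact hj
    rw [List.length_take]; omega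

lemma class_step {M : CoxeterMatrix B} {α β γ : List B} (hβ : β ∈ BraidClass M α)
    (h : BraidMove M β γ) : γ ∈ BraidClass M α :=
  Relation.ReflTransGen.tail hβ h

/-- A list of available moves starting from a word of the class yields a word of the class. -/
lemma lift_run {M : CoxeterMatrix B} {α : List B} {β : List B} (hβ : β ∈ BraidClass M α)
    {l : List ℕ} (hl : Ok (E M) (toF β) l) :
    ∃ (γ : List B) (hγ : γ ∈ BraidClass M α), toF γ = run (toF β) l ∧
      (braidGraph M α).edist ⟨β, hβ⟩ ⟨γ, hγ⟩ ≤ l.length := by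
  induction l generalizing β with
  | nil => exact ⟨β, hβ, rfl, by simp⟩
  | cons k l ih =>
    obtain ⟨s, t, x, y, h1, rfl, rfl⟩ := avail_move hl.1
    obtain ⟨-, hf⟩ := move_flip x y h1
    have hm : BraidMove M (x ++ s :: t :: s :: y) (x ++ t :: s :: t :: y) :=
      ⟨s, t, x, y, h1, rfl, rfl⟩
    have hβ' : (x ++ t :: s :: t :: y) ∈ BraidClass M α := class_step hβ hm
    have hl' : Ok (E M) (toF (x ++ t :: s :: t :: y)) l := by rw [hf]; exact hl.2
    obtain ⟨γ, hγ, h2, h3⟩ := ih hβ' hl'
    refine ⟨γ, hγ, ?_, ?_⟩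
    · rw [h2, hf]; rfl
    · have hadj : (braidGraph M α).Adj ⟨_, hβ⟩ ⟨_, hβ'⟩ := hm
      have h4 : (braidGraph M α).edist ⟨_, hβ⟩ ⟨_, hβ'⟩ = 1 :=
        SimpleGraph.edist_eq_one_iff_adj.2 hadj
      calc (braidGraph M α).edist ⟨_, hβ⟩ ⟨γ, hγ⟩
          ≤ (braidGraph M α).edist ⟨_, hβ⟩ ⟨_, hβ'⟩ + (braidGraph M α).edist ⟨_, hβ'⟩ ⟨γ, hγ⟩ :=
            SimpleGraph.edist_triangle
        _ ≤ 1 + l.length := by rw [h4]; gcongr
        _ = ((x.length :: l).length : ℕ∞) := by
            rw [List.length_cons]; push_cast; ring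

lemma walk_run {M : CoxeterMatrix B} {α : List B} {β γ : BraidClass M α}
    (w : (braidGraph M α).Walk β γ) :
    ∃ l : List ℕ, Ok (E M) (toF β.1) l ∧ run (toF β.1) l = toF γ.1 ∧ l.length = w.length := by
  induction w with
  | nil => exact ⟨[], trivial, rfl, rfl⟩
  | @cons a b c hadj w ih =>
    obtain ⟨l, h1, h2, h3⟩ := ih
    have hadj' : BraidMove M a.1 b.1 := hadj
    obtain ⟨s, t, x, y, h4, h5, h6⟩ := hadj'
    obtain ⟨h7, h8⟩ := move_flip x y h4
    rw [← h5] at h7 h8
    rw [← h6] at h8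
    refine ⟨x.length :: l, ⟨h7, ?_⟩, ?_, ?_⟩
    rotate_left 2
    · have e : (SimpleGraph.Walk.cons hadj w).length = w.length + 1 := rfl
      rw [e, List.length_cons, h3]
    · rw [← h8]; exact h1
    · show run (flip3 (toF a.1) x.length) l = toF c.1
      rw [← h8]; exact h2

lemma class_run {M : CoxeterMatrix B} {α β : List B} (h : β ∈ BraidClass M α) :
    ∃ l : List ℕ, Ok (E M) (toF α) l ∧ run (toF α) l = toF β := by
  induction h with
  | refl => exact ⟨[], trivial, rfl⟩
  | @tail b c _ hbc ih =>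
    obtain ⟨l, h1, h2⟩ := ih
    obtain ⟨s, t, x, y, h4, h5, h6⟩ := hbc
    obtain ⟨h7, h8⟩ := move_flip x y h4
    rw [← h5] at h7 h8
    rw [← h6] at h8
    refine ⟨l ++ [x.length], ?_, ?_⟩
    · rw [ok_append, h2]
      exact ⟨h1, h7, trivial⟩
    · rw [run_append, h2]
      exact h8.symm

section reduced

variable {W : Type v} [Group W] {M : CoxeterMatrix B} (cs : CoxeterSystem M W)

lemma reduced_factor {x w y : List B} (h : cs.IsReduced (x ++ (w ++ y))) : cs.IsReduced w := by
  have h1 := (h.drop x.length).take w.length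
  simpa using h1

lemma reduced_move {β γ : List B} (h : cs.IsReduced β) (hm : BraidMove M β γ) :
    cs.IsReduced γ := by
  obtain ⟨s, t, x, y, h1, rfl, rfl⟩ := hm
  have hb := cs.wordProd_braidWord_eq s t
  have h1' : M t s = 3 := by rw [M.symmetric]; exact h1
  rw [CoxeterSystem.braidWord, CoxeterSystem.braidWord, h1, h1'] at hb
  simp only [CoxeterSystem.alternatingWord, List.concat_eq_append, List.nil_append,
    List.cons_append] at hb
  have e : cs.wordProd (x ++ t :: s :: t :: y) = cs.wordProd (x ++ s :: t :: s :: y) := by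
    have e1 : x ++ t :: s :: t :: y = x ++ ([t, s, t] ++ y) := by simp
    have e2 : x ++ s :: t :: s :: y = x ++ ([s, t, s] ++ y) := by simp
    rw [e1, e2]
    simp only [cs.wordProd_append]
    rw [hb]
  unfold CoxeterSystem.IsReduced at h ⊢
  rw [e, h]
  simp

lemma reduced_class {α β : List B} (hα : cs.IsReduced α) (h : β ∈ BraidClass M α) :
    cs.IsReduced β := by
  induction h with
  | refl => exact hα
  | tail _ hbc ih => exact reduced_move cs ih hbc

lemma not_reduced_two (s : B) : ¬ cs.IsReduced [s, s] := by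
  intro h
  unfold CoxeterSystem.IsReduced at h
  rw [cs.wordProd_cons, cs.wordProd_singleton, cs.simple_mul_simple_self, cs.length_one] at h
  simp at h

lemma not_reduced_four {s t : B} (h : M s t = 3) : ¬ cs.IsReduced [s, t, s, t] := by
  have h1 := cs.not_isReduced_alternatingWord s t (m := 4) (by omega) (by omega)
  simpa [CoxeterSystem.alternatingWord] using h1

/-- The class of a reduced word satisfies the combinatorial hypotheses. -/
lemma cls (hM : TypeLambda M) {α : List B} (hα : cs.IsReduced α) :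
    Cls (E M) {f | ∃ β ∈ BraidClass M α, f = toF β} where
  symm := by
    rintro x y ⟨s, t, h1, h2, h3⟩
    exact ⟨t, s, h2, h1, by rw [M.symmetric]; exact h3⟩
  irrefl := by
    rintro x ⟨s, t, h1, h2, h3⟩
    have : s = t := Option.some.inj (h1.symm.trans h2)
    subst this
    rw [M.diagonal] at h3
    omega
  tri := by
    rintro x y z ⟨s, t, h1, h2, h3⟩ ⟨t', r, h4, h5, h6⟩ ⟨s', r', h7, h8, h9⟩
    obtain rfl : t = t' := Option.some.inj (h2.symm.trans h4)
    obtain rfl : s = s' := Option.some.inj (h1.symm.trans h7)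
    obtain rfl : r = r' := Option.some.inj (h5.symm.trans h8)
    have hne : ∀ a b : B, M a b = 3 → a ≠ b := by
      rintro a b hab rfl
      rw [M.diagonal] at hab
      omega
    exact hM.2 ⟨s, t, r, hne _ _ h3, hne _ _ h6, hne _ _ h9, h3, h6, h9⟩
  closed := by
    rintro f ⟨β, hβ, rfl⟩ i hi
    obtain ⟨s, t, x, y, h1, rfl, rfl⟩ := avail_move hi
    obtain ⟨-, hf⟩ := move_flip x y h1
    exact ⟨x ++ t :: s :: t :: y, class_step hβ ⟨s, t, x, y, h1, rfl, rfl⟩, hf.symm⟩
  conn := by
    have hsymm : ∀ x y, E M x y → E M y x := by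
      rintro x y ⟨s, t, h1, h2, h3⟩
      exact ⟨t, s, h2, h1, by rw [M.symmetric]; exact h3⟩
    rintro f ⟨β, hβ, rfl⟩ g ⟨γ, hγ, rfl⟩
    obtain ⟨l₁, a1, a2⟩ := class_run hβ
    obtain ⟨l₂, b1, b2⟩ := class_run hγ
    obtain ⟨c1, c2⟩ := ok_reverse hsymm a1
    rw [a2] at c1 c2
    refine ⟨l₁.reverse ++ l₂, ?_, ?_⟩
    · rw [ok_append, c2]; exact ⟨c1, b1⟩
    · rw [run_append, c2]; exact b2
  r1 := by
    rintro f ⟨β, hβ, rfl⟩ j x h1 ⟨s, t, h2, h3, h4⟩
    have h2' : β[j + 1]? = some s := h1.symm.trans h2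
    have e : β = β.take j ++ ([s, s] ++ β.drop (j + 2)) := by
      have : [s, s] ++ β.drop (j + 2) = s :: s :: β.drop (j + 2) := rfl
      rw [this, ← drop_of_get h2', ← drop_of_get h2, List.take_append_drop]
    have hr := reduced_class cs hα hβ
    rw [e] at hr
    exact not_reduced_two cs s (reduced_factor cs hr)
  r2 := by
    rintro f ⟨β, hβ, rfl⟩ j ⟨s, t, h1, h2, h3⟩ h4 h5
    have h4' : β[j + 2]? = some s := h4.trans h1
    have h5' : β[j + 3]? = some t := h5.trans h2
    have e : β = β.take j ++ ([s, t, s, t] ++ β.drop (j + 4)) := by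
      have : [s, t, s, t] ++ β.drop (j + 4) = s :: t :: s :: t :: β.drop (j + 4) := rfl
      rw [this, ← drop_of_get h5', ← drop_of_get h4', ← drop_of_get h2, ← drop_of_get h1,
        List.take_append_drop]
    have hr := reduced_class cs hα hβ
    rw [e] at hr
    exact not_reduced_four cs h3 (reduced_factor cs hr)

end reduced

lemma length_class {M : CoxeterMatrix B} {α β : List B} (h : β ∈ BraidClass M α) :
    β.length = α.length := by
  induction h with
  | refl => rfl
  | tail _ hbc ih =>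
    obtain ⟨s, t, x, y, -, rfl, rfl⟩ := hbc
    rw [← ih]; simp

/-- The set of shadows, coded by the number of letters before them. -/
lemma shadows_eq (M : CoxeterMatrix B) (α : List B) :
    shadows M α = (fun i : ℕ => ({i + 1, i + 2, i + 3} : Finset ℕ)) ''
      SS (E M) {f | ∃ β ∈ BraidClass M α, f = toF β} := by
  ext I
  constructor
  · rintro ⟨β, hβ, s, t, x, y, h1, h2, rfl⟩
    refine ⟨x.length, ⟨toF β, ⟨β, hβ, rfl⟩, ?_⟩, rfl⟩
    rw [h2]; exact (move_flip x y h1).1
  · rintro ⟨i, ⟨f, ⟨β, hβ, rfl⟩, hf⟩, rfl⟩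
    obtain ⟨s, t, x, y, h1, h2, rfl⟩ := avail_move hf
    exact ⟨β, hβ, s, t, x, y, h1, h2, rfl⟩

lemma triple_inj : Function.Injective (fun i : ℕ => ({i + 1, i + 2, i + 3} : Finset ℕ)) := by
  intro i j h
  have h' : ({i + 1, i + 2, i + 3} : Finset ℕ) = {j + 1, j + 2, j + 3} := h
  have h1 : i + 1 ∈ ({j + 1, j + 2, j + 3} : Finset ℕ) := by rw [← h']; simp
  have h2 : j + 1 ∈ ({i + 1, i + 2, i + 3} : Finset ℕ) := by rw [h']; simp
  simp only [Finset.mem_insert, Finset.mem_singleton] at h1 h2
  omega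

lemma finite_SS (M : CoxeterMatrix B) (α : List B) :
    (SS (E M) {f | ∃ β ∈ BraidClass M α, f = toF β}).Finite := by
  refine (Set.finite_lt_nat α.length).subset ?_
  rintro i ⟨f, ⟨β, hβ, rfl⟩, ⟨s, t, h1, -, -⟩, -⟩
  obtain ⟨hj, -⟩ := List.getElem?_eq_some_iff.1 h1
  rw [length_class hβ] at hj
  exact hj

/-- In every Coxeter system of type `Λ`, the diameter of the braid graph of a reduced expression
equals its dimension. -/
theorem result {B : Type u} {W : Type v} [Group W] {M : CoxeterMatrix B}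
    (cs : CoxeterSystem M W) (hM : TypeLambda M) (α : List B) (hα : cs.IsReduced α) :
    (shadows M α).Finite ∧ (braidGraph M α).ediam = (dim M α : ℕ∞) ∧
      (braidGraph M α).diam = dim M α := by
  set C : Set (ℕ → Option B) := {f | ∃ β ∈ BraidClass M α, f = toF β} with hC
  have H : Cls (E M) C := cls cs hM hα
  have hαC : toF α ∈ C := ⟨α, Relation.ReflTransGen.refl, rfl⟩
  obtain ⟨s, t, P⟩ := exists_pairs H ⟨_, hαC⟩
  have hfin : (SS (E M) C).Finite := finite_SS M α
  have hdim : dim M α = (SS (E M) C).ncard := by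
    unfold dim
    rw [shadows_eq, Set.ncard_image_of_injective _ triple_inj]
  have hsfin : (shadows M α).Finite := by
    rw [shadows_eq]; exact hfin.image _
  have hupper : (braidGraph M α).ediam ≤ (dim M α : ℕ∞) := by
    rw [SimpleGraph.ediam_eq_iSup_iSup_edist]
    refine iSup_le fun β => iSup_le fun γ => ?_
    have hβ : toF β.1 ∈ C := ⟨β.1, β.2, rfl⟩
    have hγ : toF γ.1 ∈ C := ⟨γ.1, γ.2, rfl⟩
    obtain ⟨l, h1, h2, h3⟩ := exists_run H P hfin _ hβ (valid_centers H P hγ) rfl
    obtain ⟨δ, hδ, h4, h5⟩ := lift_run β.2 h1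
    have h6 : run (toF β.1) l ∈ C := ⟨δ, hδ, h4.symm⟩
    have h7 : run (toF β.1) l = toF γ.1 := eq_of_centers H P h6 hγ h3
    have h8 : δ = γ.1 := toF_inj (h4.trans h7)
    subst h8
    refine h5.trans ?_
    rw [h2, hdim]
    have h9 : Dis (E M) C (toF β.1) (fun i => toF γ.1 (i + 1)) ⊆ SS (E M) C := fun i hi => hi.1
    exact_mod_cast Set.ncard_le_ncard h9 hfin
  have hlower : (dim M α : ℕ∞) ≤ (braidGraph M α).ediam := by
    obtain ⟨z, z', hz, hz', hne⟩ := exists_antipodal H P
    obtain ⟨l, h1, -, h3⟩ := exists_run H P hfin _ hαC hz rfl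
    obtain ⟨l', h1', -, h3'⟩ := exists_run H P hfin _ hαC hz' rfl
    obtain ⟨β, hβ, h4, -⟩ := lift_run (M := M) (α := α) Relation.ReflTransGen.refl h1
    obtain ⟨γ, hγ, h4', -⟩ := lift_run (M := M) (α := α) Relation.ReflTransGen.refl h1'
    have hβC : toF β ∈ C := ⟨β, hβ, rfl⟩
    have key : (dim M α : ℕ∞) ≤ (braidGraph M α).edist ⟨β, hβ⟩ ⟨γ, hγ⟩ := by
      unfold SimpleGraph.edist
      refine le_iInf fun w => ?_
      obtain ⟨m, m1, m2, m3⟩ := walk_run w
      rw [← m3, hdim]
      have hD : Dis (E M) C (toF β) z' = SS (E M) C := by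
        ext i
        refine ⟨fun h => h.1, fun h => ⟨h, ?_⟩⟩
        rw [h4, h3 i h]
        exact hne i h
      have := dis_le_length H P hfin hβC m1 (z := z') (fun i hi => by
        rw [m2]
        show toF γ (i + 1) = z' i
        rw [h4', h3' i hi])
      rw [hD] at this
      exact_mod_cast this
    refine key.trans ?_
    rw [SimpleGraph.ediam_eq_iSup_iSup_edist]
    exact le_iSup_of_le ⟨β, hβ⟩ (le_iSup_of_le ⟨γ, hγ⟩ le_rfl)
  have he := le_antisymm hupper hlower
  refine ⟨hsfin, he, ?_⟩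
  unfold SimpleGraph.diam
  rw [he]
  rfl

end Pool.Agent.Results.MP_de0ecf_co.DiamEqDim
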